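import Mathlib
import Pool.Agent.Y160.T8.Stm2

/-!
# Independence modulo `q`-th powers (helper93)
-/

set_option autoImplicit false

open Polynomial IsDedekindDomain

namespace Pool.Agent.Y93.T8

theorem pw_of_coprime {k : Type} [Field k] {ℓ m : ℕ} (h : ℓ.Coprime m) {c N : k} (hc : c ≠ 0)
    (e : c ^ m = N ^ ℓ) : ∃ s : k, s ^ ℓ = c := by
  have hb := Nat.gcd_eq_gcd_ab ℓ m
  rw [h] at hb
  refine ⟨c ^ (ℓ.gcdA m) * N ^ (ℓ.gcdB m), ?_⟩
  have e1 : (N ^ (ℓ.gcdB m)) ^ ℓ = c ^ ((m : ℤ) * ℓ.gcdB m) := by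
    rw [← zpow_natCast, ← zpow_mul, mul_comm (ℓ.gcdB m), zpow_mul, zpow_natCast, ← e,
      ← zpow_natCast c m, ← zpow_mul]
  have e2 : (c ^ (ℓ.gcdA m)) ^ ℓ = c ^ (ℓ.gcdA m * (ℓ : ℤ)) := by
    rw [← zpow_natCast, ← zpow_mul]
  rw [mul_pow, e1, e2, ← zpow_add₀ hc]
  have : ℓ.gcdA m * (ℓ : ℤ) + (m : ℤ) * ℓ.gcdB m = 1 := by
    push_cast at hb
    linarith
  rw [this, zpow_one]

theorem root_rel {k R : Type} [Field k] [CommRing R] [IsDomain R] [Algebra k R] {ζ' : k} {ℓ : ℕ}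
    (hℓ : 0 < ℓ) (hζ' : IsPrimitiveRoot ζ' ℓ) {Y Z : R} (h : Y ^ ℓ = Z ^ ℓ) :
    ∃ η : k, η ^ ℓ = 1 ∧ Y = algebraMap k R η * Z := by
  have hζR : IsPrimitiveRoot (algebraMap k R ζ') ℓ := hζ'.map_of_injective (algebraMap k R).injective
  have h1 := hζR.pow_sub_pow_eq_prod_sub_mul Y Z hℓ
  rw [h, sub_self] at h1
  obtain ⟨η, hη, h2⟩ := Finset.prod_eq_zero_iff.1 h1.symm
  rw [mem_nthRootsFinset hℓ] at hη
  haveI : NeZero ℓ := ⟨hℓ.ne'⟩
  obtain ⟨i, hi, h3⟩ := hζR.eq_pow_of_pow_eq_one hη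
  refine ⟨ζ' ^ i, ?_, ?_⟩
  · rw [← pow_mul, mul_comm, pow_mul, hζ'.pow_eq_one, one_pow]
  · rw [sub_eq_zero.1 h2, ← h3, ← map_pow]

/-- constants which become powers are powers -/
theorem const_pw {p : ℕ} (hp : p.Prime) {k K N : Type} [Field k] [Field K] [Algebra k[X] K]
    [IsFractionRing k[X] K] [Field N] [Algebra K N] [FiniteDimensional K N]
    (hcop : p.Coprime (Module.finrank K N)) {c : k} (hc : c ≠ 0) {y : N}
    (hy : y ^ p = algebraMap K N (algebraMap k[X] K (C c))) : ∃ c' : k, c' ^ p = c := by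
  have h1 := congrArg (Algebra.norm K) hy
  rw [map_pow, Algebra.norm_algebraMap] at h1
  have hinj := IsFractionRing.injective k[X] K
  have hc0 : algebraMap k[X] K (C c) ≠ 0 := by
    rw [Ne, map_eq_zero_iff _ hinj]
    exact C_ne_zero.2 hc
  obtain ⟨κ, hκ⟩ := pw_of_coprime hcop hc0 h1.symm
  obtain ⟨P, rfl⟩ : ∃ P : k[X], algebraMap k[X] K P = κ :=
    IsIntegrallyClosed.exists_algebraMap_eq_of_isIntegral_pow (n := p) hp.pos
      (by rw [hκ]; exact isIntegral_algebraMap)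
  have h2 : P ^ p = C c := hinj (by rw [map_pow, hκ])
  refine ⟨P.eval 0, ?_⟩
  rw [← eval_pow, h2, eval_C]

theorem st_indq : Pool.Agent.Y160.T8.St_indq := by
  intro p s r k K N R _ _ _ _ _ _ _ _ _ _ _ _ ζ a hp hζ hcop hcomm ha hI
  have hinj : Function.Injective (algebraMap R N) := IsFractionRing.injective R N
  have hζ' : IsPrimitiveRoot (ζ ^ (p ^ s)) p := hζ.pow (pow_pos hp.pos _) (by rw [pow_succ])
  have key : ∀ t : ℕ, ∀ (c : k) (e : Fin (r + 1) → ℕ) (w : N), c ≠ 0 → e (Fin.last r) = 0 →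
      algebraMap R N (algebraMap k R c * ∏ j, a j ^ e j) = w ^ (p ^ t) → ∀ j, p ^ t ∣ e j := by
    intro t
    induction t with
    | zero =>
      intro c e w _ _ _ j
      rw [pow_zero]
      exact one_dvd _
    | succ t ih =>
      intro c e w hc he hw
      obtain ⟨w', rfl⟩ : ∃ w' : R, algebraMap R N w' = w :=
        IsIntegrallyClosed.exists_algebraMap_eq_of_isIntegral_pow (n := p ^ (t + 1))
          (pow_pos hp.pos _) (by rw [← hw]; exact isIntegral_algebraMap)
      have hw1 : algebraMap k R c * ∏ j, a j ^ e j = (w' ^ (p ^ t)) ^ p := by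
        apply hinj
        rw [hw, ← map_pow, ← pow_mul, pow_succ]
      have h1 := hI c e (w' ^ (p ^ t)) hc hw1
      have h2 : ∀ j, ∃ d, e j = p * d := by
        intro j
        have h3 := h1 j (Fin.last r)
        rw [he] at h3
        exact (Nat.modEq_zero_iff_dvd).1 h3
      choose e' he' using h2
      have he0 : e' (Fin.last r) = 0 := by
        have h3 := he' (Fin.last r)
        rw [he] at h3
        rcases mul_eq_zero.1 h3.symm with h | h
        · exact absurd h hp.ne_zero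
        · exact h
      have hA0 : ∏ j, a j ^ e' j ≠ 0 := Finset.prod_ne_zero_iff.2 fun j _ => pow_ne_zero _ (ha j)
      have hA : ∏ j, a j ^ e j = (∏ j, a j ^ e' j) ^ p := by
        rw [← Finset.prod_pow]
        refine Finset.prod_congr rfl fun j _ => ?_
        rw [he' j, mul_comm, pow_mul]
      rw [hA] at hw1
      have hAN : algebraMap R N (∏ j, a j ^ e' j) ≠ 0 := by
        rw [Ne, map_eq_zero_iff _ hinj]
        exact hA0
      obtain ⟨c', rfl⟩ : ∃ c' : k, c' ^ p = c := by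
        refine const_pw (K := K) (N := N) hp hcop hc
          (y := algebraMap R N (w' ^ (p ^ t)) / algebraMap R N (∏ j, a j ^ e' j)) ?_
        rw [← hcomm, div_pow, ← map_pow, ← hw1, map_mul, map_pow,
          mul_div_assoc, div_self (pow_ne_zero _ hAN), mul_one]
      have hc' : c' ≠ 0 := by
        rintro rfl
        exact hc (zero_pow hp.ne_zero)
      have hw2 : (w' ^ (p ^ t)) ^ p = (algebraMap k R c' * ∏ j, a j ^ e' j) ^ p := by
        rw [← hw1, mul_pow, map_pow]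
      obtain ⟨η, hη, h3⟩ := root_rel (k := k) hp.pos hζ' hw2
      have hη0 : η ≠ 0 := fun h => by
        rw [h, zero_pow hp.ne_zero] at hη
        exact zero_ne_one hη
      have h4 := ih (η * c') e' (algebraMap R N w') (mul_ne_zero hη0 hc') he0 (by
        rw [← map_pow, h3, map_mul (algebraMap k R), mul_assoc])
      intro j
      rw [he' j, pow_succ, mul_comm (p ^ t)]
      exact mul_dvd_mul_left p (h4 j)
  exact key (s + 1)

end Pool.Agent.Y93.T8
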